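import Pool.Agent.H78.STN.Stmts

namespace Pool.STN

set_option exponentiation.threshold 30000 in
theorem cnv_pow1 : 3 ^ 15601 < 2 ^ 24727 := by
  norm_num

set_option exponentiation.threshold 30000 in
theorem cnv_pow2 : 2 ^ 1054 * 100000 < 3 ^ 665 * 99996 := by
  norm_num

theorem cnv_B : (15601 : ℝ) * Real.log 3 - 24727 * Real.log 2 ≤ 0 := by
  have h : ((3 : ℝ) ^ 15601) ≤ (2 : ℝ) ^ 24727 := by
    exact_mod_cast cnv_pow1.le
  have h2 := Real.log_le_log (by positivity) h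
  rw [Real.log_pow, Real.log_pow] at h2
  have e1 : ((15601 : ℕ) : ℝ) = 15601 := by norm_num
  have e2 : ((24727 : ℕ) : ℝ) = 24727 := by norm_num
  rw [e1, e2] at h2
  linarith

theorem cnv_A : 4 / 100000 ≤ (665 : ℝ) * Real.log 3 - 1054 * Real.log 2 := by
  have h : ((2 : ℝ) ^ 1054) * 100000 ≤ (3 : ℝ) ^ 665 * 99996 := by
    exact_mod_cast cnv_pow2.le
  have h2 := Real.log_le_log (by positivity) h
  rw [Real.log_mul (by positivity) (by norm_num), Real.log_mul (by positivity) (by norm_num),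
    Real.log_pow, Real.log_pow] at h2
  have e1 : ((665 : ℕ) : ℝ) = 665 := by norm_num
  have e2 : ((1054 : ℕ) : ℝ) = 1054 := by norm_num
  rw [e1, e2] at h2
  have h3 : Real.log 100000 - Real.log 99996 = - Real.log (99996 / 100000) := by
    rw [Real.log_div (by norm_num) (by norm_num)]
    ring
  have h4 : Real.log (99996 / 100000) ≤ 99996 / 100000 - 1 :=
    Real.log_le_sub_one_of_pos (by norm_num)
  linarith

theorem CNV_thm : CNVStmt := by
  intro k y hk1 hk2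
  have hA := cnv_A
  have hB := cnv_B
  obtain ⟨A, hAdef⟩ : ∃ A : ℝ, A = (665 : ℝ) * Real.log 3 - 1054 * Real.log 2 := ⟨_, rfl⟩
  obtain ⟨B, hBdef⟩ : ∃ B : ℝ, B = (15601 : ℝ) * Real.log 3 - 24727 * Real.log 2 := ⟨_, rfl⟩
  rw [← hAdef] at hA
  rw [← hBdef] at hB
  obtain ⟨x, hx⟩ : ∃ x : ℤ, x = 24727 * (k : ℤ) - 15601 * (y : ℤ) := ⟨_, rfl⟩
  obtain ⟨z, hz⟩ : ∃ z : ℤ, z = 665 * (y : ℤ) - 1054 * (k : ℤ) := ⟨_, rfl⟩
  have hkx : (k : ℤ) = 665 * x + 15601 * z := by
    rw [hx, hz]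
    ring
  have hform : (k : ℝ) * Real.log 3 - (y : ℝ) * Real.log 2 = (x : ℝ) * A + (z : ℝ) * B := by
    rw [hAdef, hBdef, hx, hz]
    push_cast
    ring
  rw [hform]
  rcases lt_trichotomy x 0 with hx0 | hx0 | hx0
  · have hz0 : 0 ≤ z := by omega
    have hxr : (x : ℝ) ≤ -1 := by
      have : x ≤ -1 := by omega
      exact_mod_cast this
    have hzr : (0 : ℝ) ≤ (z : ℝ) := by exact_mod_cast hz0
    have hzB : (z : ℝ) * B ≤ 0 := mul_nonpos_of_nonneg_of_nonpos hzr hB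
    have hxA : (x : ℝ) * A ≤ -A := by
      have : (x : ℝ) * A ≤ (-1) * A := mul_le_mul_of_nonneg_right hxr (by linarith)
      linarith
    rw [abs_of_nonpos (by linarith)]
    linarith
  · exfalso
    omega
  · have hz0 : z ≤ 0 := by omega
    have hxr : (1 : ℝ) ≤ (x : ℝ) := by
      have : 1 ≤ x := by omega
      exact_mod_cast this
    have hzr : (z : ℝ) ≤ 0 := by exact_mod_cast hz0
    have hzB : 0 ≤ (z : ℝ) * B := mul_nonneg_of_nonpos_of_nonpos hzr hB
    have hxA : A ≤ (x : ℝ) * A := by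
      have : (1 : ℝ) * A ≤ (x : ℝ) * A := mul_le_mul_of_nonneg_right hxr (by linarith)
      linarith
    rw [abs_of_nonneg (by linarith)]
    linarith

end Pool.STN
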